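import Pool.Agent.Q246.LB.SpecB
import Pool.Agent.W176.SDPT

set_option autoImplicit false

/-! Task GD2H-PT: location of the zeros of the heat flow (port of `Pool.Agent.W176.SDPT`). -/

namespace Pool.Agent.Q246.LB.Y228

open Complex Filter Topology MeasureTheory Set
open Pool.Agent.Y671.LD
open Pool.Agent.H24R2.JP (Om)
open Pool.Agent.H24R2.DZ (ra NN)
open Pool.Agent.W186.SD (UU NG Grow S_NGN S_AW S_NL Std)
open Pool.Agent.W186.SD.PTaux (NG_mono NN_mono UU_symm F_one_pos noz)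

theorem LocH_mono {F : ℂ → ℂ} {η η' T a : ℝ} {j0 i0 J : ℕ} {t : ℝ} (ha : 0 ≤ a) (h : η ≤ η')
    (hi : j0 ≤ i0) (H : LocH F η T a j0 J t) : LocH F η' T a i0 J t := by
  intro j hj hJ
  obtain ⟨t', h1, h2⟩ := H j (hi.trans hj) hJ
  exact ⟨t', h1, NN_mono (by positivity) h h2⟩

theorem FarOK_mono {F : ℂ → ℂ} {R R' ε0 η η' t : ℝ} (hO : 0 ≤ Om t) (hR : R' ≤ R) (h : η ≤ η')
    (H : FarOK F R ε0 η t) : FarOK F R' ε0 η' t := by
  intro z h1 h2
  exact ⟨(H z h1 (h2.trans hR)).1, (H z h1 (h2.trans hR)).2.trans (mul_le_mul_of_nonneg_right h hO)⟩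

theorem pt (h1 : SB_GROW) (h2 : S_NGN) (h3 : S_AW) (h4 : S_NL) (h5 : SB_UNG) (h6 : SB_REL) :
    SB_PT := by
  intro B F FT h hD
  obtain ⟨ηA, aA, hηA, haA, HA⟩ := h3 (1 / 2) (by norm_num) le_rfl
  obtain ⟨ηL, aL, hηL, haL, HL⟩ := h4
  obtain ⟨ηB, aB, hηB, haB, HB⟩ := h3 (1 / 40) (by norm_num) (by norm_num)
  obtain ⟨ηN, hηN, HN⟩ := h2 (min ηA ηL) (lt_min hηA hηL)
  obtain ⟨RG, ηG, cG, TG, hRG, hηG, hcG, hTG, HG⟩ := h1 B F FT h hD
  obtain ⟨RU, ηU, TU, hRU, hηU, hTU, HU⟩ := h5 B F FT h hD (1 / 40) 1 (max 1 B) (by norm_num) (by norm_num) one_pos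
    (le_max_left _ _) ηB hηB
  refine ⟨max RG RU, min (min ηN ηG) ηU, min cG (1 / 2), max aA aL,
    max (max TG (2 * TU + 1)) (max (2 * Real.exp (2 * aB) + 1) (Real.exp 4)), ?_, ?_, ?_, ?_, ?_, ?_⟩
  · exact le_max_of_le_left hRG
  · exact lt_min (lt_min hηN hηG) hηU
  · exact lt_min hcG (by norm_num)
  · exact le_max_of_le_left haA
  · exact le_max_of_le_left (le_max_of_le_left hTG)
  intro T τ a J j s hT ha hS hs1 hs2 hjJ hLoc hTop hz
  have hT1 : TG ≤ T := (le_max_left _ _).trans ((le_max_left _ _).trans hT)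
  have hT2 : 2 * TU + 1 ≤ T := (le_max_right _ _).trans ((le_max_left _ _).trans hT)
  have hT3 : 2 * Real.exp (2 * aB) + 1 ≤ T := (le_max_left _ _).trans ((le_max_right _ _).trans hT)
  have hT4 : Real.exp 4 ≤ T := (le_max_right _ _).trans ((le_max_right _ _).trans hT)
  have haA' : aA ≤ a := (le_max_left _ _).trans ha
  have haL' : aL ≤ a := (le_max_right _ _).trans ha
  have ha1 : 1 ≤ a := haA.trans haA'
  have hTpos : 0 < T := lt_of_lt_of_le (Real.exp_pos 4) hT4
  have hlog : 4 ≤ Real.log T := by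
    rw [Real.le_log_iff_exp_le hTpos]; exact hT4
  have hT5 : (5 : ℝ) ≤ T := by
    have := Real.add_one_le_exp (4 : ℝ)
    linarith
  set ω : ℝ := Om T with hω
  have hωe : ω = Real.log T / 2 := rfl
  have hω2 : 2 ≤ ω := by rw [hωe]; linarith
  have hτ := hS.tau
  have hae := hS.a_eq
  rw [← hω] at hae
  have hsm : a ≤ min cG (1 / 2) * ω := hS.small
  have hSG : Std cG T τ a J := ⟨hτ, hS.a_eq, hS.small.trans (mul_le_mul_of_nonneg_right (min_le_left _ _)
    (by rw [← hω]; linarith)), hS.top, hS.top'⟩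
  have hτω : 2 * τ * ω ≤ 1 / 2 := by
    have h : 2 * τ * ω ^ 2 ≤ 1 / 2 * ω := by
      rw [← hae]
      exact hsm.trans (mul_le_mul_of_nonneg_right (min_le_right _ _) (by linarith))
    have : (2 * τ * ω) * ω ≤ 1 / 2 * ω := by nlinarith
    exact le_of_mul_le_mul_right this (by linarith)
  -- radii
  have hra : ∀ i : ℕ, ra T (2 ^ i * a) = 2 ^ i * a / ω := fun i => rfl
  have hrpos : ∀ i : ℕ, 0 < ra T (2 ^ i * a) := fun i => by rw [hra]; positivity
  have hg : ∀ i : ℕ, ra T (2 ^ i * a) ^ 2 / (4 * τ) = 2 ^ i * (2 ^ i * a) / 2 := by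
    intro i
    rw [hra]
    have : ω ≠ 0 := by linarith
    have hτ' : τ ≠ 0 := hτ.ne'
    rw [hae]
    field_simp
    ring
  have hgle : ∀ i : ℕ, 2 ^ i * a / 2 ≤ ra T (2 ^ i * a) ^ 2 / (4 * τ) := by
    intro i
    rw [hg]
    have : (1 : ℝ) ≤ 2 ^ i := one_le_pow₀ (by norm_num)
    have h' : 0 ≤ 2 ^ i * a := by positivity
    nlinarith
  have hage : ∀ i : ℕ, a ≤ 2 ^ i * a := by
    intro i
    have : (1 : ℝ) ≤ 2 ^ i := one_le_pow₀ (by norm_num)
    nlinarith
  -- the local situation at scale i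
  have hNG : ∀ i : ℕ, j ≤ i → i ≤ J → ∃ t' : ℝ, |s.im - t'| ≤ ra T (2 ^ i * a) / 100 ∧
      NG (1 / 2) (2 ^ i * a) (ra T (2 ^ i * a) ^ 2 / (4 * τ)) (min ηA ηL)
        (fun z => F (I * t' + ra T (2 ^ i * a) * z)) := by
    intro i hi1 hi2
    obtain ⟨t', ht', hNN⟩ := hLoc i hi1 hi2
    refine ⟨t', ht', ?_⟩
    have hη1 : min (min ηN ηG) ηU ≤ ηN := (min_le_left _ _).trans (min_le_left _ _)
    have hη2 : min (min ηN ηG) ηU ≤ ηG := (min_le_left _ _).trans (min_le_right _ _)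
    refine HN _ _ _ (ha1.trans (hage i)) (NN_mono (by positivity) hη1 hNN) ?_
    refine HG T τ a s.im t' J i hT1 ha1 hSG hs1 hs2 hi2 (LocH_mono (by linarith) hη2 hi1 hLoc) ?_ ht'
      (NN_mono (by positivity) hη2 hNN)
    obtain ⟨t2, ht2, hF⟩ := hTop
    refine ⟨t2, ht2, FarOK_mono ?_ (le_max_left _ _) hη2 hF⟩
    have h1' := abs_le.mp ht2
    have : (1 : ℝ) ≤ t2 := by linarith [h1'.1, h1'.2]
    show 0 ≤ Real.log t2 / 2
    have := Real.log_nonneg this
    linarith
  have hes0 : ∀ (r t0 : ℝ), 0 < r → I * (t0 : ℂ) + (r : ℂ) * ((s - I * t0) / (r : ℂ)) = s := by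
    intro r t0 hr
    have hrc : (r : ℂ) ≠ 0 := by exact_mod_cast hr.ne'
    field_simp
    ring
  -- zeros of UU
  have hUU : ∀ (r t0 : ℝ), 0 < r →
      UU (r ^ 2 / (4 * τ)) (fun z => F (I * t0 + r * z)) ((s - I * t0) / r) = 0 := by
    intro r t0 hr
    have hrc : (r : ℂ) ≠ 0 := by exact_mod_cast hr.ne'
    have e : I * (t0 : ℂ) + (r : ℂ) * ((s - I * t0) / r) = s := by
      field_simp
      ring
    have h := h6 B F FT h hD τ r t0 ((s - I * t0) / r) hτ hr
    rw [e, hz] at h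
    have hk : (((r / (2 * Real.sqrt (Real.pi * τ)) : ℝ) : ℝ) : ℂ) ≠ 0 := by
      have : 0 < Real.sqrt (Real.pi * τ) := Real.sqrt_pos.mpr (by positivity)
      exact_mod_cast (by positivity : r / (2 * Real.sqrt (Real.pi * τ)) ≠ 0)
    rcases mul_eq_zero.mp h.symm with h' | h'
    · exact absurd h' hk
    · exact h'
  have hre : ∀ (r t0 : ℝ), ((s - I * t0) / r).re = s.re / r := by
    intro r t0
    rw [Complex.div_ofReal_re]; simp
  have him : ∀ (r t0 : ℝ), ((s - I * t0) / r).im = (s.im - t0) / r := by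
    intro r t0
    rw [Complex.div_ofReal_im]; simp
  -- no zeros between r_i/2 and 6 r_i
  have hno : ∀ i : ℕ, j ≤ i → i ≤ J →
      ¬ (ra T (2 ^ i * a) / 2 ≤ |s.re| ∧ |s.re| ≤ 6 * ra T (2 ^ i * a)) := by
    intro i hi1 hi2
    obtain ⟨t', ht', hN⟩ := hNG i hi1 hi2
    have hr := hrpos i
    have hN' := NG_mono (by positivity) (min_le_left ηA ηL) hN
    have := noz (by norm_num) hN' (HA _ _ _ (haA'.trans (hage i)) (hgle i) hN')
      ((s - I * t') / (ra T (2 ^ i * a) : ℝ)) ?_ (hUU _ _ hr)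
    · rintro ⟨h1', h2'⟩
      apply this
      rw [hre, abs_div, abs_of_pos hr]
      constructor
      · rw [le_div_iff₀ hr]; linarith
      · rw [div_le_iff₀ hr]; linarith
    · rw [him, abs_div, abs_of_pos hr, div_le_iff₀ hr]; linarith
  -- top scale
  have htop : |s.re| < 1 / 40 := by
    by_contra hcon
    push Not at hcon
    obtain ⟨t2, ht2, hF⟩ := hTop
    have ht2' := abs_le.mp ht2
    have ht2a : T / 2 - 1 / 100 ≤ t2 := by linarith [ht2'.2]
    have ht2b : t2 ≤ 3 * T + 1 / 100 := by linarith [ht2'.1]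
    have ht2c : 0 < t2 := by linarith
    have hOm : aB ≤ Om t2 := by
      show aB ≤ Real.log t2 / 2
      have : 2 * aB ≤ Real.log t2 := by
        rw [Real.le_log_iff_exp_le ht2c]
        linarith
      linarith
    have hOm2 : Om t2 ≤ 2 * ω := by
      show Real.log t2 / 2 ≤ 2 * (Real.log T / 2)
      have : Real.log t2 ≤ Real.log (T ^ 2) := Real.log_le_log ht2c (by nlinarith)
      rw [Real.log_pow] at this
      push_cast at this
      linarith
    have hgω : ω ≤ 1 / (4 * τ) := by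
      rw [le_div_iff₀ (by positivity)]; nlinarith
    have hF' : FarOK F RU (1 / 40 * min 1 1 / 10) ηU t2 := by
      have : (1 / 40 * min 1 1 / 10 : ℝ) = 1 / 400 := by norm_num
      rw [this]
      exact FarOK_mono (by linarith) (le_max_right _ _) (min_le_right _ _) hF
    set r : ℝ := max 1 |s.re| with hr
    have hr1 : 1 ≤ r := le_max_left _ _
    have hr0 : 0 < r := by linarith
    have hrs : |s.re| ≤ r := le_max_right _ _
    have hrB : r ≤ max 1 B := max_le_max le_rfl (hD.strip τ s hτ.le hz)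
    have hrr : r ≤ r ^ 2 := by nlinarith
    have hg2 : r ^ 2 * ω ≤ r ^ 2 / (4 * τ) := by
      have h9 := mul_le_mul_of_nonneg_left hgω (by positivity : (0:ℝ) ≤ r ^ 2)
      have e9 : r ^ 2 * (1 / (4 * τ)) = r ^ 2 / (4 * τ) := by ring
      rwa [e9] at h9
    have hN := HU t2 r (r ^ 2 / (4 * τ)) (by linarith) hr1 hrB (by nlinarith) hF'
    have hrO : 1 * Om t2 ≤ r * Om t2 := mul_le_mul_of_nonneg_right hr1 (by linarith)
    have hrO2 : r * Om t2 / 2 ≤ r ^ 2 / (4 * τ) := by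
      have h9 : r * Om t2 ≤ r * (2 * ω) := mul_le_mul_of_nonneg_left hOm2 (by linarith)
      have h10 : r * ω ≤ r ^ 2 * ω := mul_le_mul_of_nonneg_right hrr (by linarith)
      linarith
    have := noz (by norm_num) hN (HB _ _ _ (by linarith) hrO2 hN)
      ((s - I * t2) / ((r : ℝ) : ℂ)) ?_ (hUU r t2 hr0)
    · apply this
      rw [hre, abs_div, abs_of_pos hr0]
      constructor
      · rw [le_div_iff₀ hr0]
        rcases le_total 1 |s.re| with h9 | h9
        · have : r = |s.re| := max_eq_right h9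
          rw [this]
          linarith
        · have : r = 1 := max_eq_left h9
          rw [this]
          linarith
      · rw [div_le_iff₀ hr0]
        linarith
    · rw [him, abs_div, abs_of_pos hr0, div_le_iff₀ hr0]
      linarith
  have hrJ : 1 / 200 < ra T (2 ^ J * a) := by
    have h := hS.top'
    rw [hra, lt_div_iff₀ (by linarith), hωe]
    rw [pow_succ] at h
    nlinarith
  have hdown : ∀ m : ℕ, m ≤ J - j → |s.re| < ra T (2 ^ (J - m) * a) / 2 := by
    intro m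
    induction m with
    | zero =>
      intro _
      have := hno J hjJ le_rfl
      by_contra hc
      push Not at hc
      exact this ⟨by simpa using hc, by linarith⟩
    | succ m ih =>
      intro hm
      have ih' := ih (by omega)
      have := hno (J - (m + 1)) (by omega) (by omega)
      by_contra hc
      push Not at hc
      refine this ⟨hc, ?_⟩
      have e : J - m = (J - (m + 1)) + 1 := by omega
      rw [e, hra, pow_succ] at ih'
      have hp := hrpos (J - (m + 1))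
      rw [hra] at hp ⊢
      have : 2 ^ (J - (m + 1)) * 2 * a / ω / 2 = 2 ^ (J - (m + 1)) * a / ω := by ring
      rw [this] at ih'
      linarith
  have hfin : |s.re| < ra T (2 ^ j * a) / 2 := by
    have := hdown (J - j) le_rfl
    rwa [Nat.sub_sub_self hjJ] at this
  refine ⟨hfin.le, ?_⟩
  intro hj0 hbad
  subst hj0
  obtain ⟨t', ht', hN⟩ := hNG 0 le_rfl (Nat.zero_le _)
  have hr := hrpos 0
  have e1 : ra T (2 ^ 0 * a) ^ 2 / (4 * τ) = a / 2 := by rw [hg]; ring
  have hN' := NG_mono (by positivity) (min_le_right ηA ηL) hN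
  have hN2 : NG (1 / 2) a (a / 2) ηL (fun z => F (I * t' + ra T (2 ^ 0 * a) * z)) := by
    rw [e1] at hN'
    simpa using hN'
  set z : ℂ := (s - I * t') / (ra T (2 ^ 0 * a) : ℝ) with hzdef
  have hU0 := hUU (ra T (2 ^ 0 * a)) t' hr
  have hU1 : UU (a / 2) (fun z => F (I * t' + ra T (2 ^ 0 * a) * z)) z = 0 := by
    rw [e1] at hU0; exact hU0
  have hL := HL a _ haL' hN2 z ?_ ?_ hU1
  · obtain ⟨hz0, hd⟩ := hL
    rcases hbad.2 with hb | hb
    · apply hb
      have := hre (ra T (2 ^ 0 * a)) t'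
      rw [← hzdef, hz0] at this
      rcases div_eq_zero_iff.mp this.symm with h | h
      · exact h
      · exact absurd h hr.ne'
    · apply hd
      have hk : ((((ra T (2 ^ 0 * a)) / (2 * Real.sqrt (Real.pi * τ)) : ℝ) : ℝ) : ℂ) ≠ 0 := by
        have : 0 < Real.sqrt (Real.pi * τ) := Real.sqrt_pos.mpr (by positivity)
        exact_mod_cast (by positivity : (ra T (2 ^ 0 * a)) / (2 * Real.sqrt (Real.pi * τ)) ≠ 0)
      have hfun : UU (a / 2) (fun z => F (I * t' + ra T (2 ^ 0 * a) * z)) =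
          fun w : ℂ => ((((ra T (2 ^ 0 * a)) / (2 * Real.sqrt (Real.pi * τ)) : ℝ) : ℝ) : ℂ)⁻¹ *
            FT τ (I * t' + (ra T (2 ^ 0 * a) : ℝ) * w) := by
        funext w
        rw [h6 B F FT h hD τ _ t' w hτ hr, e1, inv_mul_cancel_left₀ hk]
      have hrc : ((ra T (2 ^ 0 * a) : ℝ) : ℂ) ≠ 0 := by exact_mod_cast hr.ne'
      have hes : I * (t' : ℂ) + ((ra T (2 ^ 0 * a) : ℝ) : ℂ) * z = s := by
        rw [hzdef]
        exact hes0 _ _ hr
      rw [hfun, deriv_const_mul_field]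
      have hd1 : deriv (fun w : ℂ => FT τ (I * t' + (ra T (2 ^ 0 * a) : ℝ) * w)) z =
          (ra T (2 ^ 0 * a) : ℝ) * deriv (FT τ) s := by
        have h := deriv_comp_mul_left ((ra T (2 ^ 0 * a) : ℝ) : ℂ) (fun w : ℂ => FT τ (I * t' + w)) z
        rw [smul_eq_mul, deriv_comp_const_add, hes] at h
        exact h
      rw [hd1, hb, mul_zero, mul_zero]
  · rw [hzdef, hre, abs_div, abs_of_pos hr, div_le_iff₀ hr]
    have : |s.re| < ra T (2 ^ 0 * a) / 2 := by simpa using hfin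
    linarith
  · rw [hzdef, him, abs_div, abs_of_pos hr, div_le_iff₀ hr, one_mul]
    exact ht'.trans (div_le_self hr.le (by norm_num))

end Pool.Agent.Q246.LB.Y228
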