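import Pool.Agent.Q246.LB.SpecB

/-! Port of `Pool.Agent.W358.SD.UNG`: the local situation at a fixed scale for a general `F` with `HB`. -/

set_option autoImplicit false

namespace Pool.Agent.Q246.LB.Y46

open Complex Filter Topology MeasureTheory Set
open Pool.Agent.H24R2.JP (Om)
open Pool.Agent.W186.SD (UU NG Grow)
open Pool.Agent.Y671.LD

/-- integration of the logarithmic derivative -/
theorem seg {f : ℂ → ℂ} {S : Set ℂ} (hS : Convex ℝ S) (hf : Differentiable ℂ f)
    {A B : ℝ} (hld : ∀ w ∈ S, f w ≠ 0 ∧ ‖logDeriv f w - (A : ℂ)‖ ≤ B) {u v : ℂ}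
    (hu : u ∈ S) (hv : v ∈ S) :
    ‖f v‖ ≤ ‖f u‖ * Real.exp (A * (v.re - u.re) + B * ‖v - u‖) := by
  set γ : ℝ → ℂ := fun s => u + (s : ℂ) * (v - u) with hγ
  set G : ℝ → ℂ := fun s => f (γ s) * Complex.exp (-(A : ℂ) * γ s) with hG
  have hγd : ∀ s : ℝ, HasDerivAt γ (v - u) s := by
    intro s
    have h1 : HasDerivAt (fun s : ℝ => (s : ℂ)) 1 s := Complex.ofRealCLM.hasDerivAt
    have := (h1.mul_const (v - u)).const_add u
    rwa [one_mul] at this
  have hGd : ∀ s : ℝ, HasDerivAt G ((deriv f (γ s) - A * f (γ s)) * (v - u) *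
      Complex.exp (-(A : ℂ) * γ s)) s := by
    intro s
    have h1 : HasDerivAt (fun s : ℝ => f (γ s)) (deriv f (γ s) * (v - u)) s :=
      (hf (γ s)).hasDerivAt.comp s (hγd s)
    have h2 : HasDerivAt (fun s : ℝ => Complex.exp (-(A : ℂ) * γ s))
        (Complex.exp (-(A : ℂ) * γ s) * (-(A : ℂ) * (v - u))) s :=
      ((hγd s).const_mul (-(A : ℂ))).cexp
    have h3 := h1.mul h2
    refine h3.congr_deriv ?_
    ring
  have hmem : ∀ s : ℝ, s ∈ Icc (0 : ℝ) 1 → γ s ∈ S := by
    intro s hs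
    have h1 : γ s = (1 - s) • u + s • v := by
      simp only [hγ, Complex.real_smul]
      push_cast
      ring
    rw [h1]
    exact hS hu hv (by linarith [hs.2]) hs.1 (by ring)
  have hgr := norm_le_gronwallBound_of_norm_deriv_right_le (f := G)
    (f' := fun s => (deriv f (γ s) - A * f (γ s)) * (v - u) * Complex.exp (-(A : ℂ) * γ s))
    (δ := ‖G 0‖) (K := B * ‖v - u‖) (ε := 0) (a := 0) (b := 1)
    (fun s _ => (hGd s).continuousAt.continuousWithinAt)
    (fun s _ => (hGd s).hasDerivWithinAt) le_rfl (by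
      intro s hs
      obtain ⟨h0, h1⟩ := hld (γ s) (hmem s ⟨hs.1, hs.2.le⟩)
      have h2 : deriv f (γ s) - A * f (γ s) = (logDeriv f (γ s) - A) * f (γ s) := by
        rw [logDeriv_apply]
        field_simp
      rw [h2, hG, add_zero]
      simp only [norm_mul]
      have h3 : ‖logDeriv f (γ s) - (A : ℂ)‖ * ‖f (γ s)‖ * ‖v - u‖ *
          ‖Complex.exp (-(A : ℂ) * γ s)‖ ≤ B * ‖f (γ s)‖ * ‖v - u‖ *
          ‖Complex.exp (-(A : ℂ) * γ s)‖ := by
        gcongr
      calc _ ≤ _ := h3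
        _ = _ := by ring) 1 ⟨zero_le_one, le_rfl⟩
  rw [gronwallBound_ε0, sub_zero, mul_one] at hgr
  have e0 : γ 0 = u := by simp [hγ]
  have e1 : γ 1 = v := by simp [hγ]
  rw [hG] at hgr
  simp only [e0, e1, norm_mul, Complex.norm_exp] at hgr
  have r1 : ∀ w : ℂ, (-(A : ℂ) * w).re = -(A * w.re) := by
    intro w
    simp
  rw [r1, r1] at hgr
  have h4 : ‖f v‖ = ‖f v‖ * Real.exp (-(A * v.re)) * Real.exp (A * v.re) := by
    rw [mul_assoc, ← Real.exp_add]
    simp
  rw [h4]
  calc ‖f v‖ * Real.exp (-(A * v.re)) * Real.exp (A * v.re)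
      ≤ ‖f u‖ * Real.exp (-(A * u.re)) * Real.exp (B * ‖v - u‖) * Real.exp (A * v.re) := by
        gcongr
    _ = ‖f u‖ * Real.exp (A * (v.re - u.re) + B * ‖v - u‖) := by
        rw [mul_assoc, mul_assoc, ← Real.exp_add, ← Real.exp_add]
        congr 2
        ring

theorem fdiff {F : ℂ → ℂ} (hF : Differentiable ℂ F) (t : ℝ) :
    Differentiable ℂ fun w : ℂ => F (I * t + w) := by
  intro w
  exact (hF (I * t + w)).comp w ((differentiable_id w).const_add _)

theorem fld (F : ℂ → ℂ) (t : ℝ) (w : ℂ) : logDeriv (fun w : ℂ => F (I * t + w)) w =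
    logDeriv F (I * t + w) := by
  rw [logDeriv_apply, logDeriv_apply]
  congr 1
  exact deriv_comp_const_add _ _ _

theorem xsymm {F : ℂ → ℂ} (hs : ∀ z : ℂ, F (-((starRingEnd ℂ) z)) = (starRingEnd ℂ) (F z))
    (t : ℝ) (w : ℂ) : F (I * t + -((starRingEnd ℂ) w)) = (starRingEnd ℂ) (F (I * t + w)) := by
  rw [← hs]
  congr 1
  rw [map_add, map_mul, Complex.conj_I, Complex.conj_ofReal]
  ring

/-- the far region -/
theorem conv_far (R ε : ℝ) : Convex ℝ {w : ℂ | ε ≤ w.re ∧ ‖w‖ ≤ R} := by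
  have h1 : Convex ℝ {w : ℂ | ε ≤ w.re} := convex_halfSpace_re_ge ε
  have h2 : Convex ℝ {w : ℂ | ‖w‖ ≤ R} := by
    have h3 : {w : ℂ | ‖w‖ ≤ R} = Metric.closedBall (0 : ℂ) R := by
      ext w
      simp
    rw [h3]
    exact convex_closedBall (0 : ℂ) R
  exact h1.inter h2

theorem num {δ c1 r O e : ℝ} (h9 : e ≤ δ * c1 / 40 * O) (h10 : δ * c1 * O ≤ δ * r * O)
    (h11 : 0 ≤ δ * r * O) :
    O * (1 - r) + e + -((1 - δ * c1 / 10 - δ * c1 / 40) * O) ≤ -((1 - δ / 5) * (r * O)) := by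
  linarith

theorem far_le {F : ℂ → ℂ} (hF : Differentiable ℂ F) {R ε0 η t : ℝ} (h : FarOK F R ε0 η t)
    {u v : ℂ} (hu : ε0 ≤ u.re) (hu' : ‖u‖ ≤ R) (hv : ε0 ≤ v.re) (hv' : ‖v‖ ≤ R) :
    ‖F (I * t + v)‖ ≤ ‖F (I * t + u)‖ *
      Real.exp (Om t * (v.re - u.re) + η * Om t * ‖v - u‖) := by
  have := seg (conv_far R ε0) (fdiff hF t) (A := Om t) (B := η * Om t) (fun w hw => by
    rw [fld]
    exact h w hw.1 hw.2) (u := u) (v := v) ⟨hu, hu'⟩ ⟨hv, hv'⟩
  exact this

theorem Om_nonneg {t : ℝ} (ht : 2 ≤ t) : 0 ≤ Om t := by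
  unfold Om
  have := Real.log_nonneg (by linarith : (1 : ℝ) ≤ t)
  positivity

theorem FarOK_mono {F : ℂ → ℂ} {R ε0 η t R' ε0' η' : ℝ} (ht : 2 ≤ t) (h : FarOK F R ε0 η t)
    (h1 : R' ≤ R) (h2 : ε0 ≤ ε0') (h3 : η ≤ η') : FarOK F R' ε0' η' t := by
  intro z hz hz'
  obtain ⟨h4, h5⟩ := h z (h2.trans hz) (hz'.trans h1)
  exact ⟨h4, h5.trans (mul_le_mul_of_nonneg_right h3 (Om_nonneg ht))⟩

set_option maxHeartbeats 4000000 in
theorem ung (h1 : SB_NEAR) (h2 : SB_GR1) : SB_UNG := by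
  intro B F FT h hD
  have hF := hD.diff
  have hs := hD.symm
  intro δ c X hδ hδ' hc hcX η' hη'
  set c1 := min c 1 with hc1
  have hc10 : 0 < c1 := lt_min hc one_pos
  have hc11 : c1 ≤ 1 := min_le_right _ _
  have hc1c : c1 ≤ c := min_le_left _ _
  have hX0 : 0 < X := hc.trans_le hcX
  obtain ⟨R1, η1, T1, hR1, hη1, hT1, H1⟩ := h1 B F FT h hD (max 1 (20 * X)) (δ * c1 / 40) (le_max_left _ _)
    (by positivity)
  obtain ⟨R2, η2, T2, hR2, hη2, hT2, H2⟩ := h2 B F FT h hD c X hc hcX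
  set R := max R1 (max R2 (1 + 20 * X)) with hR
  set η := min (min η1 η2) (min η' (min (δ / 210) (δ * c1 / (40 * (X + 1))))) with hη
  have hRR1 : R1 ≤ R := le_max_left _ _
  have hRR2 : R2 ≤ R := (le_max_left _ _).trans (le_max_right _ _)
  have hRX : 1 + 20 * X ≤ R := (le_max_right _ _).trans (le_max_right _ _)
  have hη0 : 0 < η := by
    rw [hη]
    refine lt_min (lt_min hη1 hη2) (lt_min hη' (lt_min (by positivity) (by positivity)))
  have hηη1 : η ≤ η1 := (min_le_left _ _).trans (min_le_left _ _)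
  have hηη2 : η ≤ η2 := (min_le_left _ _).trans (min_le_right _ _)
  have hηη' : η ≤ η' := (min_le_right _ _).trans (min_le_left _ _)
  have hηδ : η ≤ δ / 210 := (min_le_right _ _).trans ((min_le_right _ _).trans (min_le_left _ _))
  have hηX : η * (X + 1) ≤ δ * c1 / 40 := by
    have : η ≤ δ * c1 / (40 * (X + 1)) :=
      (min_le_right _ _).trans ((min_le_right _ _).trans (min_le_right _ _))
    rw [le_div_iff₀ (by positivity)] at this
    linarith
  clear_value R η
  refine ⟨R, η, max T1 T2, hR1.trans hRR1, hη0, hT1.trans (le_max_left _ _), ?_⟩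
  intro t r g ht hr hrX hg hFar
  have ht1 : T1 ≤ t := (le_max_left _ _).trans ht
  have ht2 : T2 ≤ t := (le_max_right _ _).trans ht
  have ht' : 2 ≤ t := hT1.trans ht1
  have hOm := Om_nonneg ht'
  have hr0 : 0 < r := hc.trans_le hr
  set ε0 := δ * c1 / 10 with hε0
  have hε00 : 0 < ε0 := by positivity
  have hε01 : ε0 ≤ 1 / 2 := by
    rw [hε0]
    nlinarith
  have hc1r : c1 ≤ r := hc1c.trans hr
  have hε0r : ε0 ≤ r := by
    rw [hε0]
    nlinarith
  clear_value ε0 c1
  have hε01' : ε0 ≤ 1 := by linarith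
  have hre : ∀ z : ℂ, ((r : ℂ) * z).re = r * z.re := fun z => by simp
  have hnr : ∀ z : ℂ, ‖(r : ℂ) * z‖ = r * ‖z‖ := fun z => by
    rw [norm_mul, Complex.norm_real, Real.norm_eq_abs, abs_of_pos hr0]
  have hfd : Differentiable ℂ fun z : ℂ => F (I * t + r * z) := by
    intro z
    exact (fdiff hF t (r * z)).comp z ((differentiable_id z).const_mul (r : ℂ))
  have hld : ∀ z : ℂ, logDeriv (fun z : ℂ => F (I * t + r * z)) z =
      r * logDeriv F (I * t + r * z) := by
    intro z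
    have hlin : HasDerivAt (fun z : ℂ => I * t + (r : ℂ) * z) (r : ℂ) z := by
      have := ((hasDerivAt_id z).const_mul (r : ℂ)).const_add (I * (t : ℂ))
      rw [mul_one] at this
      exact this
    have h1 : HasDerivAt (fun z : ℂ => F (I * t + (r : ℂ) * z))
        (deriv F (I * t + r * z) * r) z :=
      HasDerivAt.comp (h₂ := F) z (hF (I * t + r * z)).hasDerivAt hlin
    rw [logDeriv_apply, logDeriv_apply, h1.deriv]
    ring
  refine ⟨hfd, ?_, ?_, ?_, ?_⟩
  · intro z
    have := xsymm hs t (r * z)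
    rw [← this]
    congr 2
    simp
  · intro z hz hz'
    have h3 : ε0 ≤ ((r : ℂ) * z).re := by
      rw [hre]
      have : ε0 ≤ r * (δ / 10) := by
        rw [hε0]
        nlinarith
      exact this.trans (mul_le_mul_of_nonneg_left hz hr0.le)
    have h4 : ‖(r : ℂ) * z‖ ≤ R := by
      rw [hnr]
      nlinarith [norm_nonneg z]
    obtain ⟨h5, h6⟩ := hFar _ h3 h4
    refine ⟨h5, ?_⟩
    rw [hld]
    have h7 : (r : ℂ) * logDeriv F (I * t + r * z) - ((r * Om t : ℝ) : ℂ) =
        r * (logDeriv F (I * t + r * z) - (Om t : ℂ)) := by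
      push_cast
      ring
    rw [h7, hnr]
    calc r * ‖logDeriv F (I * t + r * z) - (Om t : ℂ)‖ ≤ r * (η * Om t) :=
          mul_le_mul_of_nonneg_left h6 hr0.le
      _ ≤ r * (η' * Om t) := by gcongr
      _ = η' * (r * Om t) := by ring
  · have key : ∀ z : ℂ, 0 ≤ z.re → z.re ≤ δ / 10 → ‖z‖ ≤ 20 →
        ‖F (I * t + r * z)‖ ≤ ‖F (I * t + r * 1)‖ *
          Real.exp (-((1 - δ / 5) * (r * Om t))) := by
      intro z hz0 hz hz'
      have hone : ((r : ℂ) * 1) = ((r : ℝ) : ℂ) := by simp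
      have hRr : ‖((r : ℝ) : ℂ)‖ ≤ R := by
        rw [Complex.norm_real, Real.norm_eq_abs, abs_of_pos hr0]
        linarith
      rcases le_or_gt ε0 ((r : ℂ) * z).re with h3 | h3
      · have h4 : ‖(r : ℂ) * z‖ ≤ R := by
          rw [hnr]
          nlinarith [norm_nonneg z]
        have h5 := far_le hF hFar (u := ((r : ℝ) : ℂ)) (v := (r : ℂ) * z)
          (by rw [Complex.ofReal_re]; exact hε0r) hRr h3 h4
        rw [hone]
        refine h5.trans (mul_le_mul_of_nonneg_left (Real.exp_le_exp.2 ?_) (norm_nonneg _))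
        rw [hre, Complex.ofReal_re]
        have h6 : ‖(r : ℂ) * z - r‖ ≤ 21 * r := by
          have : (r : ℂ) * z - r = r * (z - 1) := by ring
          rw [this, hnr]
          have : ‖z - 1‖ ≤ 21 := by
            calc ‖z - 1‖ ≤ ‖z‖ + ‖(1 : ℂ)‖ := norm_sub_le _ _
              _ ≤ 20 + 1 := by rw [norm_one]; linarith
              _ = 21 := by norm_num
          nlinarith
        have h7 : η * Om t * ‖(r : ℂ) * z - r‖ ≤ δ / 210 * Om t * (21 * r) :=
          mul_le_mul (mul_le_mul_of_nonneg_right hηδ hOm) h6 (norm_nonneg _)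
            (mul_nonneg (by positivity) hOm)
        have h8 : Om t * (r * z.re - r) ≤ Om t * (r * (δ / 10) - r) :=
          mul_le_mul_of_nonneg_left (sub_le_sub_right (mul_le_mul_of_nonneg_left hz hr0.le) r) hOm
        calc Om t * (r * z.re - r) + η * Om t * ‖(r : ℂ) * z - r‖
            ≤ Om t * (r * (δ / 10) - r) + δ / 210 * Om t * (21 * r) := add_le_add h8 h7
          _ = _ := by ring
      · have h4 : ‖(r : ℂ) * z‖ ≤ max 1 (20 * X) := by
          rw [hnr]
          refine le_trans ?_ (le_max_right _ _)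
          nlinarith [norm_nonneg z]
        have h5 : |((r : ℂ) * z).re| ≤ ε0 := by
          rw [abs_le]
          refine ⟨?_, h3.le⟩
          rw [hre]
          have := mul_nonneg hr0.le hz0
          linarith
        have hFar1 : FarOK F R1 ε0 η1 t := FarOK_mono ht' hFar hRR1 le_rfl hηη1
        have h6 := H1 t ε0 ht1 (by rw [hε0]; nlinarith) hε01 hFar1 _ h5 h4
        have h7 := far_le hF hFar (u := ((r : ℝ) : ℂ)) (v := 1)
          (by rw [Complex.ofReal_re]; exact hε0r) hRr (by rw [Complex.one_re]; exact hε01')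
          (by rw [norm_one]; linarith)
        rw [hone]
        refine h6.trans ?_
        have h8 : ‖(1 : ℂ) - r‖ ≤ X + 1 := by
          calc ‖(1 : ℂ) - r‖ ≤ ‖(1 : ℂ)‖ + ‖(r : ℂ)‖ := norm_sub_le _ _
            _ ≤ 1 + X := by
              rw [norm_one, Complex.norm_real, Real.norm_eq_abs, abs_of_pos hr0]
              linarith
            _ = X + 1 := by ring
        calc ‖F (I * t + 1)‖ * Real.exp (-((1 - ε0 - δ * c1 / 40) * Om t))
            ≤ (‖F (I * t + ((r : ℝ) : ℂ))‖ *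
              Real.exp (Om t * ((1 : ℂ).re - ((r : ℝ) : ℂ).re) + η * Om t * ‖(1 : ℂ) - r‖)) *
                Real.exp (-((1 - ε0 - δ * c1 / 40) * Om t)) := by
              gcongr
          _ = ‖F (I * t + ((r : ℝ) : ℂ))‖ * Real.exp (Om t * (1 - r) +
                η * Om t * ‖(1 : ℂ) - r‖ + -((1 - ε0 - δ * c1 / 40) * Om t)) := by
              rw [mul_assoc, ← Real.exp_add, Complex.one_re, Complex.ofReal_re]
          _ ≤ _ := by
              refine mul_le_mul_of_nonneg_left (Real.exp_le_exp.2 ?_) (norm_nonneg _)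
              have h9 : η * Om t * ‖(1 : ℂ) - r‖ ≤ δ * c1 / 40 * Om t := by
                calc η * Om t * ‖(1 : ℂ) - r‖ ≤ η * Om t * (X + 1) := by gcongr
                  _ = η * (X + 1) * Om t := by ring
                  _ ≤ _ := by gcongr
              have h10 : δ * c1 * Om t ≤ δ * r * Om t := by gcongr
              have h11 : 0 ≤ δ * r * Om t := by positivity
              rw [hε0]
              exact num h9 h10 h11
    intro z hz hz'
    rcases le_or_gt 0 z.re with h0 | h0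
    · rw [abs_of_nonneg h0] at hz
      exact key z h0 hz hz'
    · rw [abs_of_neg h0] at hz
      have h3 := key (-((starRingEnd ℂ) z)) (by simp; linarith) (by simpa using hz) (by simpa using hz')
      have h4 : F (I * t + r * (-((starRingEnd ℂ) z))) =
          (starRingEnd ℂ) (F (I * t + r * z)) := by
        rw [← xsymm hs]
        congr 2
        simp
      rw [h4, Complex.norm_conj] at h3
      exact h3
  · refine H2 t r g ht2 hr hrX hg (FarOK_mono ht' hFar hRR2 ?_ hηη2)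
    rw [hε0]
    nlinarith

end Pool.Agent.Q246.LB.Y46
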