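import Pool.Agent.Q246.LB.SpecB
import Pool.Agent.Y671.LD.AllH
import Pool.Agent.W333.SDNGN
import Pool.Agent.W578.SD.UD
import Pool.Agent.W45.SD.AW
import Pool.Agent.W366.SDNL
import Pool.Agent.W337.SD.Cnt
import Pool.Agent.W337.SD.Cov
import Pool.Agent.Q246.LB.Near
import Pool.Agent.Q246.LB.GR1
import Pool.Agent.Q246.LB.UNG
import Pool.Agent.Q246.LB.Bigm
import Pool.Agent.Q246.LB.Unit
import Pool.Agent.Q246.LB.Grow
import Pool.Agent.Q246.LB.PT
import Pool.Agent.Q246.LB.Cnx
import Pool.Agent.Q246.LB.Midh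
import Pool.Agent.Q246.LB.Dyh

set_option autoImplicit false

/-! # Zeros of the heat flow for any degree: assembly of the abstract theorem -/

namespace Pool.Agent.Q246.LB

open Pool.Agent.W186.SD
open Pool.Agent.Y671.LD (ud nl aw cnt)

theorem hrel : SB_REL := Y494.rel

theorem hung : SB_UNG := Y46.ung Y494.near Y317.gr1

theorem hbigm : SB_BIGM := Y46.bigm hung aw nl hrel

theorem hunit : SB_UNIT := Y660.unit cnt hrel

theorem hgrow : SB_GROW := Y175.grow

theorem hpt : SB_PT := Y228.pt hgrow Pool.Agent.W333.SDNGN.ngn aw nl hung hrel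

theorem hcnx : SB_CNX := Y228.cnx hgrow Pool.Agent.W333.SDNGN.ngn cnt hrel

theorem hmidh : SB_MIDH := Y287.Midh.midh hunit hpt hcnx Pool.Agent.W337.SD.cov

theorem hdyh : SB_DYH := Y287.Dyh.dyh hmidh hbigm hunit Pool.Agent.W337.SD.cov

theorem hfinh : SB_FINH := Y287.Dyh.finh hdyh

end Pool.Agent.Q246.LB
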